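import Pool.Agent.H.MP_00b752_lc.A
import Pool.Agent.Lib.helper1.Konig

namespace Pool.Agent.H.MP_186ff7_lc

open Pool.Agent.Lib.CX Finset Classical Pool.Agent.H.MP_00b752_lc

variable {β : Type}

theorem dg_one {τ κ : Type} {p q : τ → κ} {M : Finset τ} {v : κ} : dg p q M v ≤ 1 ↔
    ∀ e ∈ M, ∀ e' ∈ M, (p e = v ∨ q e = v) → (p e' = v ∨ q e' = v) → e = e' := by
  simp only [dg, card_le_one, mem_filter]
  exact ⟨fun h e he e' he' a b => h e ⟨he, a⟩ e' ⟨he', b⟩, fun h e he e' he' => h e he.1 e' he'.1 he.2 he'.2⟩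

theorem card_small (Q : Finset β) (w : ℕ) (T : Finset (Finset β)) (h : ∀ S ∈ T, S ⊆ Q ∧ S.card ≤ w) :
    T.card ≤ (Q.card + 1) ^ w := by
  induction w generalizing T with
  | zero =>
    exact card_le_one.2 fun a ha b hb => by
      rw [card_eq_zero.1 (Nat.le_zero.1 (h a ha).2), card_eq_zero.1 (Nat.le_zero.1 (h b hb).2)]
  | succ w ih =>
    have := ih (Q.powerset.filter fun S => S.card ≤ w) (by simp)
    refine le_trans (card_le_card (t := (insertNone Q ×ˢ Q.powerset.filter fun S => S.card ≤ w).image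
      fun x => x.1.toFinset ∪ x.2) fun S hS => ?_) (card_image_le.trans ?_)
    · simp only [mem_image, mem_product, mem_filter, mem_powerset]
      rcases S.eq_empty_or_nonempty with rfl | ⟨x, hx⟩
      · exact ⟨(none, ∅), by simp, by simp⟩
      · refine ⟨(some x, S.erase x), ⟨by simpa using (h S hS).1 hx, (erase_subset _ _).trans (h S hS).1, ?_⟩,
          by simpa using insert_erase hx⟩
        have := (h S hS).2
        rw [card_erase_of_mem hx]; omega
    · rw [card_product, card_insertNone, pow_succ']; exact Nat.mul_le_mul_left _ this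

/-- number of elements minus the size of a maximum matching of the strict order -/
noncomputable def wd (Q : List β) (lt : β → β → Prop) : ℕ :=
  Q.length - mx (fl (Q ×ˢ Q) fun e => lt e.1 e.2) (fun e => (false, e.1)) (fun e => (true, e.2)) fun _ => 1

theorem wd_spec {Q : List β} (hQ : Q.Nodup) {lt : β → β → Prop}
    (tr : ∀ a ∈ Q, ∀ b ∈ Q, ∀ c ∈ Q, lt a b → lt b c → lt a c) :
    (∃ A : Finset β, (∀ a ∈ A, a ∈ Q) ∧ (∀ a ∈ A, ∀ b ∈ A, ¬ lt a b) ∧ wd Q lt ≤ A.card) ∧
      ∀ A : Finset β, (∀ a ∈ A, a ∈ Q) → (∀ a ∈ A, ∀ b ∈ A, ¬ lt a b) → A.card ≤ wd Q lt := by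
  obtain ⟨⟨M, m1, m2, m3⟩, m4⟩ := mx_spec (nodup_fl (hQ.product hQ) fun e => lt e.1 e.2)
    (p := fun e => (false, e.1)) (q := fun e => (true, e.2)) (by simp) fun _ => 1
  have cQ := List.toFinset_card_of_nodup hQ
  constructor
  · obtain ⟨C, h1, h2⟩ := Pool.Agent.Lib.helper1.konig (V := Q.toFinset) (fun a b => lt a b) (M.card + 1) (by
      rintro ⟨a, b, ha, hb, h⟩
      have := m4 ⟨univ.image fun i => ((a i).1, (b i).1), fun e he => ?_, fun v => dg_one.2 fun e he e' he' h1 h2 => ?_, rfl⟩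
      · rw [card_image_of_injective _ fun i j e => ha (Subtype.ext (congrArg Prod.fst e)), ← m3] at this
        simp at this
      · obtain ⟨i, -, rfl⟩ := mem_image.1 he
        exact mem_fl.2 ⟨List.mem_product.2 ⟨List.mem_toFinset.1 (a i).2, List.mem_toFinset.1 (b i).2⟩, h i⟩
      · obtain ⟨i, -, rfl⟩ := mem_image.1 he
        obtain ⟨j, -, rfl⟩ := mem_image.1 he'
        rcases h1 with rfl | rfl <;> simp only [Prod.mk.injEq, Bool.true_eq_false, Bool.false_eq_true, false_and,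
          true_and, or_false, false_or] at h2
        · rw [ha (Subtype.ext h2)]
        · rw [hb (Subtype.ext h2)])
    refine ⟨Q.toFinset \ C.image Subtype.val, fun a ha => List.mem_toFinset.1 (mem_sdiff.1 ha).1, fun a ha b hb h => ?_, ?_⟩
    · rw [mem_sdiff] at ha hb
      rcases h2 ⟨a, ha.1⟩ ⟨b, hb.1⟩ h with h | h
      exacts [ha.2 (mem_image_of_mem _ h), hb.2 (mem_image_of_mem _ h)]
    · have := le_card_sdiff (C.image Subtype.val) Q.toFinset
      have := card_image_le (s := C) (f := Subtype.val)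
      unfold wd; omega
  · intro A hA' h
    have hA : A ⊆ Q.toFinset := fun a ha => List.mem_toFinset.2 (hA' a ha)
    have m5 : ∀ e ∈ M, e.1 ∈ Q ∧ e.2 ∈ Q ∧ lt e.1 e.2 := fun e he => by
      have := mem_fl.1 (m1 e he)
      exact ⟨(List.mem_product.1 this.1).1, (List.mem_product.1 this.1).2, this.2⟩
    have := card_le_card_of_injOn (s := M) (t := Q.toFinset \ A)
      (fun e => if e.2 ∈ A ∨ ∃ y ∈ A, lt e.2 y then e.1 else e.2) (fun e he => ?_) fun e he e' he' q => ?_
    · rw [card_sdiff_of_subset hA] at this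
      have := card_le_card hA
      unfold wd; omega
    · obtain ⟨a1, a2, a3⟩ := m5 e he
      simp only [coe_sdiff, Set.mem_sdiff, mem_coe, List.mem_toFinset]
      split_ifs with h1
      · refine ⟨a1, fun h2 => ?_⟩
        rcases h1 with h1 | ⟨y, hy, h1⟩
        exacts [h _ h2 _ h1 a3, h _ h2 _ hy (tr _ a1 _ a2 _ (List.mem_toFinset.1 (hA hy)) a3 h1)]
      · exact ⟨a2, fun h2 => h1 (.inl h2)⟩
    · have k : ∀ e ∈ M, ∀ e' ∈ M, (e.2 ∈ A ∨ ∃ y ∈ A, lt e.2 y) → e.1 = e'.2 → (e'.2 ∈ A ∨ ∃ y ∈ A, lt e'.2 y) := by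
        rintro e he e' - h1 q
        obtain ⟨a1, a2, a3⟩ := m5 e he
        rcases h1 with h1 | ⟨y, hy, h1⟩
        exacts [.inr ⟨_, h1, q ▸ a3⟩, .inr ⟨y, hy, q ▸ tr _ a1 _ a2 _ (List.mem_toFinset.1 (hA hy)) a3 h1⟩]
      beta_reduce at q
      split_ifs at q with h1 h2 h2
      · exact dg_one.1 (m2 (false, e.1)) _ he _ he' (.inl rfl) (.inl (by rw [q]))
      · exact (h2 (k e he e' he' h1 q)).elim
      · exact (h1 (k e' he' e he h2 q.symm)).elim
      · exact dg_one.1 (m2 (true, e.2)) _ he _ he' (.inr rfl) (.inr (by rw [q]))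

theorem pt_wd {α : Type} [Enc α] [Enc β] {Q : α → List β} {lt : α → β → β → Prop} (hQ : PT Q)
    (h : PT fun x : α × β × β => @decide (lt x.1 x.2.1 x.2.2) (propDecidable _)) : PT fun a => wd (Q a) (lt a) :=
  hQ.length.sub (pt_mx (pt_fl (by fun_prop) h) (by fun_prop) (by fun_prop) (by fun_prop))

theorem surj {n : ℕ} {f : ℕ → ℕ} (h : ∀ a < n, f a < n) (inj : ∀ a < n, ∀ b < n, f a = f b → a = b) :
    ∀ b < n, ∃ a < n, f a = b := fun b hb => by
  obtain ⟨a, ha, e⟩ := surj_on_of_inj_on_of_card_le (s := range n) (t := range n) (fun a _ => f a)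
    (fun a ha => mem_range.2 (h a (mem_range.1 ha))) (fun a b ha hb => inj a (mem_range.1 ha) b (mem_range.1 hb))
    le_rfl b (mem_range.2 hb)
  exact ⟨a, mem_range.1 ha, e.symm⟩

end Pool.Agent.H.MP_186ff7_lc
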