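import Pool.Agent.Lib.lead.CXDefs

namespace Pool.Agent.H.MP_186ff7_lc

/-- preference lists of the agents `0, 1, …`, best first -/
abbrev Pf := List (List ℕ)

/-- a matching lists the partner of every agent (of every man, for marriage instances) -/
abbrev Mt := List (Option ℕ)

/-- `a` has the partner `b` -/
def Pa (M : Mt) (a b : ℕ) : Prop := M.getD a none = some b

/-- agent `a` ranks `b` before `c` -/
def Bet (P : Pf) (a b c : ℕ) : Prop := (P.getD a []).idxOf b < (P.getD a []).idxOf c

/-- roommates instance: every agent ranks all other agents -/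
def SR (I : Pf) : Prop := ∀ a < I.length, (I.getD a []).Perm ((List.range I.length).erase a)

/-- stable matching of a roommates instance -/
def StR (I : Pf) (M : Mt) : Prop :=
  M.length = I.length ∧ (∀ a b, Pa M a b → b ≠ a ∧ Pa M b a) ∧
    ∀ a < I.length, ∀ b < I.length, a ≠ b → ¬ Pa M a b →
      ¬ ((∀ c, Pa M a c → Bet I a b c) ∧ ∀ c, Pa M b c → Bet I b a c)

/-- marriage instance: lists of the men and lists of the women -/
def SM (J : Pf × Pf) : Prop :=
  J.2.length = J.1.length ∧ ∀ a < J.1.length,
    (J.1.getD a []).Perm (List.range J.1.length) ∧ (J.2.getD a []).Perm (List.range J.1.length)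

/-- stable matching of a marriage instance -/
def StM (J : Pf × Pf) (M : Mt) : Prop :=
  M.length = J.1.length ∧ (∀ m w, Pa M m w → w < J.1.length ∧ ∀ m', Pa M m' w → m' = m) ∧
    ∀ m < J.1.length, ∀ w < J.1.length, ¬ Pa M m w →
      ¬ ((∀ w', Pa M m w' → Bet J.1 m w w') ∧ ∀ m', Pa M m' w → Bet J.2 w m m')

end Pool.Agent.H.MP_186ff7_lc
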