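import Pool.Agent.H.MP_186ff7_lc.A
import Pool.Agent.H.MP_186ff7_lc.Defs

namespace Pool.Agent.H.MP_186ff7_lc

open Pool.Agent.Lib.CX Finset Classical

variable (J : Pf × Pf)

def wm (m r : ℕ) : ℕ := (J.1.getD m []).getD r 0
def rk (P : Pf) (a b : ℕ) : ℕ := (P.getD a []).idxOf b
def Bump (ρ : List ℕ) (m : ℕ) : Prop := ∃ m' < J.1.length, m' ≠ m ∧ rk J.1 m' (wm J m (ρ.getD m 0)) ≤ ρ.getD m' 0 ∧
  rk J.2 (wm J m (ρ.getD m 0)) m' ≤ rk J.2 (wm J m (ρ.getD m 0)) m
def Fix (ρ : List ℕ) : Prop := ρ.length = J.1.length ∧ ∀ m < J.1.length, ρ.getD m 0 < J.1.length ∧ ¬ Bump J ρ m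
def Le (n : ℕ) (ρ σ : List ℕ) : Prop := ∀ m < n, ρ.getD m 0 ≤ σ.getD m 0
noncomputable def st (ρ : List ℕ) : List ℕ := (List.range J.1.length).map fun m =>
  if ρ.getD m 0 < J.1.length ∧ Bump J ρ m then ρ.getD m 0 + 1 else ρ.getD m 0
noncomputable def HH (x : ℕ × ℕ) : List ℕ :=
  (st J)^[J.1.length * J.1.length + 1] ((List.range J.1.length).map fun m => if m = x.1 then min x.2 J.1.length else 0)
noncomputable def QQ : List (List ℕ) :=
  (((List.range J.1.length ×ˢ List.range J.1.length).map (HH J)).filter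
    fun ρ => ∀ m < J.1.length, ρ.getD m 0 < J.1.length).dedup
def toM (ρ : List ℕ) : Mt := (List.range J.1.length).map fun m => some (wm J m (ρ.getD m 0))

theorem getD_mr {β : Type} {n m : ℕ} (f : ℕ → β) (d : β) (h : m < n) : ((List.range n).map f).getD m d = f m := by
  simp [h]

theorem Le.anti {n ρ σ} (h : Le n ρ σ) (h' : Le n σ ρ) (a : ρ.length = n) (b : σ.length = n) : ρ = σ :=
  List.ext_getElem (a.trans b.symm) fun i h1 h2 => by
    have := le_antisymm (h i (a ▸ h1)) (h' i (a ▸ h1))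
    rwa [List.getD_eq_getElem _ _ h1, List.getD_eq_getElem _ _ h2] at this

theorem st_it (ρ : List ℕ) (h0 : ρ.length = J.1.length) (h1 : ∀ m < J.1.length, ρ.getD m 0 ≤ J.1.length) (k : ℕ) :
    ((st J)^[k] ρ).length = J.1.length ∧ (∀ m < J.1.length, ((st J)^[k] ρ).getD m 0 ≤ J.1.length) ∧
      Le J.1.length ρ ((st J)^[k] ρ) ∧ (∀ σ, Fix J σ → Le J.1.length ρ σ → Le J.1.length ((st J)^[k] ρ) σ) ∧
      (st J ((st J)^[k] ρ) = (st J)^[k] ρ ∨ k ≤ ∑ m ∈ range J.1.length, ((st J)^[k] ρ).getD m 0) := by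
  induction k with
  | zero => exact ⟨h0, h1, fun _ _ => le_rfl, fun _ _ h => h, .inr (Nat.zero_le _)⟩
  | succ k ih =>
    rw [Function.iterate_succ_apply']
    obtain ⟨a1, a2, a3, a4, a5⟩ := ih
    generalize (st J)^[k] ρ = τ at *
    have b : Le J.1.length τ (st J τ) := fun m hm => by rw [st, getD_mr _ _ hm]; split_ifs <;> omega
    refine ⟨by simp [st], fun m hm => ?_, fun m hm => (a3 m hm).trans (b m hm), fun σ hσ h m hm => ?_, ?_⟩
    · have := a2 m hm; rw [st, getD_mr _ _ hm]; split_ifs <;> omega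
    · rw [st, getD_mr _ _ hm]; split_ifs with hb
      · obtain ⟨-, m', c1, c2, c3, c4⟩ := hb
        refine (a4 σ hσ h m hm).lt_of_ne fun e => (hσ.2 m hm).2 ⟨m', c1, c2, ?_, e ▸ c4⟩
        exact e ▸ c3.trans (a4 σ hσ h m' c1)
      · exact a4 σ hσ h m hm
    · by_cases e : st J τ = τ
      · exact .inl (by rw [e, e])
      refine .inr ((a5.resolve_left e).trans_lt (sum_lt_sum (fun m hm => b m (mem_range.1 hm)) ?_))
      by_contra! hc
      exact e (Le.anti (fun m hm => hc m (mem_range.2 hm)) b (by simp [st]) a1)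

theorem HH_spec (x : ℕ × ℕ) (h1 : x.1 < J.1.length) (h2 : x.2 < J.1.length) :
    x.2 ≤ (HH J x).getD x.1 0 ∧ (∀ σ, Fix J σ → x.2 ≤ σ.getD x.1 0 → Le J.1.length (HH J x) σ) ∧
      ((∀ m < J.1.length, (HH J x).getD m 0 < J.1.length) → Fix J (HH J x)) := by
  obtain ⟨a1, a2, a3, a4, a5⟩ := st_it J ((List.range J.1.length).map fun m => if m = x.1 then min x.2 J.1.length else 0)
    (by simp) (fun m hm => by rw [getD_mr _ _ hm]; split_ifs <;> omega) (J.1.length * J.1.length + 1)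
  refine ⟨le_trans (by rw [getD_mr _ _ h1]; simp [h2.le]) (a3 _ h1), fun σ hσ h => a4 σ hσ fun m hm => ?_,
    fun h => ⟨a1, fun m hm => ⟨h m hm, fun hb => ?_⟩⟩⟩
  · rw [getD_mr _ _ hm]; split_ifs with e
    exacts [e ▸ (min_le_left _ _).trans h, Nat.zero_le _]
  · have := sum_le_card_nsmul _ _ _ fun m hm => a2 m (mem_range.1 hm)
    rw [card_range, smul_eq_mul] at this
    have e : (st J (HH J x)).getD m 0 = (HH J x).getD m 0 := congrArg (·.getD m 0) (a5.resolve_right (by omega))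
    rw [st, getD_mr _ _ hm, if_pos ⟨h m hm, hb⟩] at e
    omega

theorem mem_QQ {q} : q ∈ QQ J ↔ (∃ x : ℕ × ℕ, x.1 < J.1.length ∧ x.2 < J.1.length ∧ HH J x = q) ∧
    ∀ m < J.1.length, q.getD m 0 < J.1.length := by
  simp [QQ, and_assoc, -List.getD_eq_getElem?_getD]

theorem QQ_fix {q} (h : q ∈ QQ J) : Fix J q := by
  obtain ⟨⟨x, h1, h2, rfl⟩, h⟩ := (mem_QQ J).1 h
  exact (HH_spec J x h1 h2).2.2 h

theorem pt_QQ : PT QQ := by
  have h1 : PT fun x : (Pf × Pf) × List ℕ => st x.1 x.2 := by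
    unfold st
    refine PT.map (PT.ite (PT.decide_and (i := fun _ => inferInstance) (j := fun _ => propDecidable _) (by fun_prop)
      (MP_00b752_lc.pd_congr (j := fun _ => inferInstance) ?_ fun _ => by unfold Bump; rfl)) (by fun_prop)
      (by fun_prop)) (by fun_prop)
    unfold rk wm; fun_prop
  have h2 : PT fun x : (Pf × Pf) × ℕ × ℕ => HH x.1 x.2 := by
    refine PT.iterate (F := fun x : (Pf × Pf) × ℕ × ℕ => st x.1)
      (B := fun x => x.1.1.length * (3 * x.1.1.length + 2 + 1) + 2) (by fun_prop) (by fun_prop) (by fun_prop)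
      (by fun_prop) (by fun_prop) fun x k _ => ?_
    obtain ⟨a1, a2, -⟩ := st_it x.1 ((List.range x.1.1.length).map fun m => if m = x.2.1 then min x.2.2 x.1.1.length else 0)
      (by simp) (fun m hm => by rw [getD_mr _ _ hm]; split_ifs <;> omega) k
    refine (size_list_le (B := 3 * x.1.1.length + 2) fun y hy => ?_).trans (by rw [a1])
    obtain ⟨i, hi, rfl⟩ := List.getElem_of_mem hy
    have := a2 i (a1 ▸ hi)
    rw [List.getD_eq_getElem _ _ hi] at this
    exact (size_nat_le _).trans (by omega)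
  unfold QQ; fun_prop

variable {J}

theorem rk_spec {n : ℕ} {l : List ℕ} (h : l.Perm (List.range n)) :
    (∀ r < n, l.getD r 0 < n ∧ l.idxOf (l.getD r 0) = r) ∧ ∀ w < n, l.idxOf w < n ∧ l.getD (l.idxOf w) 0 = w := by
  have e : l.length = n := by simpa using h.length_eq
  subst e
  refine ⟨fun r hr => ?_, fun w hw => ?_⟩
  · rw [List.getD_eq_getElem _ _ hr]
    exact ⟨List.mem_range.1 (h.subset (List.getElem_mem hr)), (h.nodup_iff.2 List.nodup_range).idxOf_getElem _ _⟩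
  · have := List.idxOf_lt_length_of_mem (h.symm.subset (List.mem_range.2 hw))
    exact ⟨this, by rw [List.getD_eq_getElem _ _ this, List.getElem_idxOf]⟩

theorem SM.wm (h : SM J) {m r} (hm : m < J.1.length) (hr : r < J.1.length) :
    wm J m r < J.1.length ∧ rk J.1 m (wm J m r) = r := (rk_spec (h.2 m hm).1).1 r hr
theorem SM.rk (h : SM J) {m w} (hm : m < J.1.length) (hw : w < J.1.length) :
    rk J.1 m w < J.1.length ∧ MP_186ff7_lc.wm J m (rk J.1 m w) = w := (rk_spec (h.2 m hm).1).2 w hw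
theorem SM.inj (h : SM J) {w a b} (hw : w < J.1.length) (ha : a < J.1.length) (hb : b < J.1.length)
    (e : MP_186ff7_lc.rk J.2 w a = MP_186ff7_lc.rk J.2 w b) : a = b := by
  have := (rk_spec (h.2 w hw).2).2
  rw [← (this a ha).2, ← (this b hb).2]; exact congrArg ((J.2.getD w []).getD · 0) e

theorem Fix.lt {ρ} (f : Fix J ρ) {m m'} (hm : m < J.1.length) (hm' : m' < J.1.length) (n : m' ≠ m)
    (l : rk J.1 m' (wm J m (ρ.getD m 0)) ≤ ρ.getD m' 0) :
    rk J.2 (wm J m (ρ.getD m 0)) m < rk J.2 (wm J m (ρ.getD m 0)) m' :=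
  not_le.1 fun e => (f.2 m hm).2 ⟨m', hm', n, l, e⟩

theorem Fix.inj (h : SM J) {ρ} (f : Fix J ρ) : ∀ a < J.1.length, ∀ b < J.1.length,
    wm J a (ρ.getD a 0) = wm J b (ρ.getD b 0) → a = b := fun a ha b hb e => by
  by_contra n
  have h1 := f.lt ha hb (Ne.symm n) (by rw [e, (h.wm hb (f.2 b hb).1).2])
  have h2 := f.lt hb ha n (by rw [← e, (h.wm ha (f.2 a ha).1).2])
  rw [e] at h1; omega

theorem Fix.surj (h : SM J) {ρ} (f : Fix J ρ) : ∀ w < J.1.length, ∃ a < J.1.length, wm J a (ρ.getD a 0) = w :=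
  MP_186ff7_lc.surj (fun a ha => (h.wm ha (f.2 a ha).1).1) (f.inj h)

theorem opp (h : SM J) {ρ σ} (f : Fix J ρ) (g : Fix J σ) {m m2} (hm : m < J.1.length) (hm2 : m2 < J.1.length)
    (e : wm J m2 (σ.getD m2 0) = wm J m (ρ.getD m 0)) (l : σ.getD m 0 ≤ ρ.getD m 0) :
    rk J.2 (wm J m (ρ.getD m 0)) m ≤ rk J.2 (wm J m (ρ.getD m 0)) m2 := by
  let X := (range J.1.length).filter fun a => ρ.getD a 0 < σ.getD a 0
  let Y := (range J.1.length).filter fun w => ∃ a < J.1.length, ∃ b < J.1.length, wm J a (ρ.getD a 0) = w ∧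
    wm J b (σ.getD b 0) = w ∧ rk J.2 w b < rk J.2 w a
  have h1 : X.image (fun a => wm J a (ρ.getD a 0)) ⊆ Y := fun w hw => by
    obtain ⟨a, ha, rfl⟩ := mem_image.1 hw
    simp only [X, mem_filter, mem_range] at ha
    have := h.wm ha.1 (f.2 a ha.1).1
    obtain ⟨b, hb, e⟩ := g.surj h _ this.1
    refine mem_filter.2 ⟨mem_range.2 this.1, a, ha.1, b, hb, rfl, e, ?_⟩
    rw [← e]
    refine g.lt hb ha.1 (fun n => ?_) (by rw [e, this.2]; exact ha.2.le)
    subst n
    have := (h.wm hb (g.2 a hb).1).2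
    rw [e] at this; omega
  have h2 : Y ⊆ X.image fun a => wm J a (σ.getD a 0) := fun w hw => by
    obtain ⟨-, a, ha, b, hb, rfl, e, l⟩ := mem_filter.1 hw
    refine mem_image.2 ⟨b, mem_filter.2 ⟨mem_range.2 hb, not_le.1 fun n => ?_⟩, e⟩
    have := f.lt ha hb (by rintro rfl; omega) (by rw [← e, (h.wm hb (g.2 b hb).1).2]; exact n)
    omega
  have h3 := eq_of_subset_of_card_le h1 ((card_le_card h2).trans (card_image_le.trans (card_image_of_injOn
    fun a ha b hb => f.inj h a (mem_range.1 (mem_filter.1 ha).1) b (mem_range.1 (mem_filter.1 hb).1)).ge))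
  by_contra! n
  obtain ⟨a, ha, e2⟩ := mem_image.1
    (h3.ge (mem_filter.2 ⟨mem_range.2 (h.wm hm (f.2 m hm).1).1, m, hm, m2, hm2, rfl, e, n⟩))
  simp only [X, mem_filter, mem_range] at ha
  have := f.inj h a ha.1 m hm e2
  subst this; omega

theorem fix_max (h : SM J) {ρ σ τ} (f : Fix J ρ) (g : Fix J σ) (l : τ.length = J.1.length)
    (e : ∀ m < J.1.length, τ.getD m 0 = max (ρ.getD m 0) (σ.getD m 0)) : Fix J τ := by
  have key : ∀ {ρ σ}, Fix J ρ → Fix J σ → ∀ m < J.1.length, ∀ m' < J.1.length, m' ≠ m → σ.getD m 0 ≤ ρ.getD m 0 →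
      rk J.1 m' (wm J m (ρ.getD m 0)) ≤ max (ρ.getD m' 0) (σ.getD m' 0) →
      rk J.2 (wm J m (ρ.getD m 0)) m < rk J.2 (wm J m (ρ.getD m 0)) m' := by
    intro ρ σ f g m hm m' hm' n l1 l2
    rcases le_max_iff.1 l2 with l2 | l2
    · exact f.lt hm hm' n l2
    have hw := (h.wm hm (f.2 m hm).1).1
    obtain ⟨b, hb, e⟩ := g.surj h _ hw
    have := opp h f g hm hb e l1
    by_cases q : m' = b
    · subst q; exact this.lt_of_ne fun e => n (h.inj hw hm hm' e).symm
    · have := g.lt hb hm' q (e ▸ l2)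
      rw [e] at this; omega
  refine ⟨l, fun m hm => ⟨by rw [e m hm]; exact max_lt (f.2 m hm).1 (g.2 m hm).1, ?_⟩⟩
  rintro ⟨m', hm', n, l1, l2⟩
  rw [e m' hm'] at l1
  rw [e m hm] at l1 l2
  rcases le_total (σ.getD m 0) (ρ.getD m 0) with q | q
  · rw [max_eq_left q] at l1 l2; exact not_lt.2 l2 (key f g m hm m' hm' n q l1)
  · rw [max_eq_right q] at l1 l2; exact not_lt.2 l2 (key g f m hm m' hm' n q (l1.trans (max_comm _ _).le))

theorem pa_lt {M : Mt} {a b} (h : Pa M a b) : a < M.length := by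
  by_contra! n; simp [Pa, n] at h

theorem pa_toM {ρ m w} : Pa (toM J ρ) m w ↔ m < J.1.length ∧ wm J m (ρ.getD m 0) = w := by
  refine ⟨fun h => ?_, fun h => by rw [Pa, toM, getD_mr _ _ h.1, h.2]⟩
  have := pa_lt h
  simp only [toM, List.length_map, List.length_range] at this
  rw [Pa, toM, getD_mr _ _ this] at h
  exact ⟨this, Option.some.inj h⟩

theorem Fix.stm (h : SM J) {ρ} (f : Fix J ρ) : StM J (toM J ρ) := by
  refine ⟨by simp [toM], fun m w => ?_, fun m hm w hw n ⟨h1, h2⟩ => ?_⟩ <;> simp only [pa_toM] at *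
  · rintro ⟨hm, rfl⟩
    exact ⟨(h.wm hm (f.2 m hm).1).1, fun m' e => f.inj h _ e.1 _ hm e.2⟩
  · obtain ⟨b, hb, rfl⟩ := f.surj h w hw
    have a1 : rk J.1 m _ < rk J.1 m _ := h1 _ ⟨hm, rfl⟩
    have a2 : rk J.2 _ m < rk J.2 _ b := h2 b ⟨hb, rfl⟩
    rw [(h.wm hm (f.2 m hm).1).2] at a1
    have := f.lt hb hm (by rintro rfl; omega) a1.le
    omega

theorem StM.fix (h : SM J) {M} (s : StM J M) : ∃ ρ, Fix J ρ ∧ toM J ρ = M := by
  have per : ∀ m < J.1.length, ∃ w, Pa M m w := fun m hm => by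
    by_contra! n
    have : ∀ w, ∃ a, w < J.1.length → Pa M a w := fun w => by
      by_contra! q
      exact s.2.2 m hm w (q 0).1 (n w) ⟨fun w' e => (n w' e).elim, fun a e => ((q a).2 e).elim⟩
    choose p hp using this
    obtain ⟨a, ha, rfl⟩ := surj (f := p) (fun w hw => s.1 ▸ pa_lt (hp w hw))
      (fun a ha b hb e => Option.some.inj ((hp a ha).symm.trans (e ▸ hp b hb))) m hm
    exact n _ (hp a ha)
  choose! p hp using per
  have hw := fun m hm => (s.2.1 m _ (hp m hm)).1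
  refine ⟨(List.range J.1.length).map fun m => rk J.1 m (p m), ⟨by simp, fun m hm => ?_⟩, ?_⟩
  · rw [getD_mr _ _ hm]
    refine ⟨(h.rk hm (hw m hm)).1, ?_⟩
    rintro ⟨m', hm', n, l1, l2⟩
    rw [getD_mr _ _ hm, (h.rk hm (hw m hm)).2] at l1 l2
    rw [getD_mr _ _ hm'] at l1
    have n1 : ¬ Pa M m' (p m) := fun e => n ((s.2.1 m _ (hp m hm)).2 _ e)
    refine s.2.2 m' hm' _ (hw m hm) n1 ⟨fun w' e => ?_, fun a e => ?_⟩
    · obtain rfl : p m' = w' := Option.some.inj ((hp m' hm').symm.trans e)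
      refine l1.lt_of_ne fun q => n1 ?_
      rw [← (h.rk hm' (hw m hm)).2, q, (h.rk hm' (hw m' hm')).2]; exact e
    · rw [(s.2.1 m _ (hp m hm)).2 _ e]
      exact l2.lt_of_ne fun q => n (h.inj (hw m hm) hm' hm q)
  · refine List.ext_getElem (by simp [toM, s.1]) fun i h1 h2 => ?_
    have hi : i < J.1.length := s.1 ▸ h2
    have := hp i hi
    rw [Pa, List.getD_eq_getElem _ _ h2] at this
    simp only [toM, List.getElem_map, List.getElem_range]
    rw [getD_mr _ _ hi, (h.rk hi (hw i hi)).2, this]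

/-- the logarithm of the number of stable marriages is approximable within a logarithmic factor -/
theorem sm_width : ∃ w : Pf × Pf → ℕ, PT w ∧ ∀ J, SM J →
    (∀ T : Finset Mt, (∀ M ∈ T, StM J M) → T.card ≤ (J.1.length * J.1.length + 1) ^ w J) ∧
      ∃ T : Finset Mt, (∀ M ∈ T, StM J M) ∧ 2 ^ w J ≤ T.card + 1 := by
  refine ⟨fun J => wd (QQ J) fun a b => a ≠ b ∧ Le J.1.length a b, pt_wd pt_QQ
    (MP_00b752_lc.pd_congr (j := fun _ => inferInstance) ?_ fun _ => by unfold Le; rfl), fun J h => ?_⟩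
  · fun_prop
  obtain ⟨⟨A, a1, a2, a3⟩, a4⟩ := wd_spec (Q := QQ J) (List.nodup_dedup _) (lt := fun a b => a ≠ b ∧ Le J.1.length a b)
    fun a ha b hb c _ h1 h2 => ⟨fun e => h1.1 (h1.2.anti (e ▸ h2.2) (QQ_fix J ha).1 (QQ_fix J hb).1),
      fun m hm => (h1.2 m hm).trans (h2.2 m hm)⟩
  refine ⟨fun T hT => ?_, ?_⟩
  · choose! ρ hρ e using fun M hM => (hT M hM).fix h
    let D := fun σ => (QQ J).toFinset.filter fun q => Le J.1.length q σ
    let F := fun σ => (D σ).filter fun q => ∀ q' ∈ D σ, ¬ (q ≠ q' ∧ Le J.1.length q q')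
    have key : ∀ σ τ, Fix J σ → F σ = F τ → Le J.1.length σ τ := fun σ τ f e m hm => by
      obtain ⟨b1, b2, -⟩ := HH_spec J (m, σ.getD m 0) hm (f.2 m hm).1
      have b3 := b2 σ f le_rfl
      obtain ⟨q, c1, c2⟩ := exists_max_image ((D σ).filter fun q => σ.getD m 0 ≤ q.getD m 0)
        (fun q => ∑ i ∈ range J.1.length, q.getD i 0) ⟨_, mem_filter.2 ⟨mem_filter.2 ⟨List.mem_toFinset.2
          ((mem_QQ J).2 ⟨⟨_, hm, (f.2 m hm).1, rfl⟩, fun i hi => (b3 i hi).trans_lt (f.2 i hi).1⟩), b3⟩, b1⟩⟩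
      rw [mem_filter] at c1
      have : q ∈ F τ := e ▸ mem_filter.2 ⟨c1.1, fun q' hq' l => l.1 (l.2.anti (fun i hi => ?_)
        (QQ_fix J (List.mem_toFinset.1 (mem_filter.1 c1.1).1)).1 (QQ_fix J (List.mem_toFinset.1 (mem_filter.1 hq').1)).1)⟩
      · exact c1.2.trans ((mem_filter.1 (mem_filter.1 this).1).2 m hm)
      · by_contra! n
        exact not_le.2 (sum_lt_sum (fun j hj => l.2 j (mem_range.1 hj)) ⟨i, mem_range.2 hi, n⟩)
          (c2 q' (mem_filter.2 ⟨hq', c1.2.trans (l.2 m hm)⟩))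
    rw [← card_image_of_injOn (f := fun M => F (ρ M)) fun M hM N hN q => by
      rw [← e M hM, ← e N hN, (key _ _ (hρ M hM) q).anti (key _ _ (hρ N hN) q.symm) (hρ M hM).1 (hρ N hN).1]]
    refine (card_small (QQ J).toFinset _ _ fun S hS => ?_).trans (Nat.pow_le_pow_left (Nat.succ_le_succ ?_) _)
    · obtain ⟨M, -, rfl⟩ := mem_image.1 hS
      have : F (ρ M) ⊆ (QQ J).toFinset := (filter_subset _ _).trans (filter_subset _ _)
      exact ⟨this, a4 _ (fun a ha => List.mem_toFinset.1 (this ha)) fun a ha b hb => (mem_filter.1 ha).2 b (mem_filter.1 hb).1⟩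
    · refine (List.toFinset_card_le _).trans ((List.dedup_sublist _).length_le.trans ((List.length_filter_le _ _).trans ?_))
      simp [List.length_product]
  · let jn := fun S : Finset (List ℕ) => (List.range J.1.length).map fun m => S.sup fun q => q.getD m 0
    have hj : ∀ S : Finset (List ℕ), S.Nonempty → S ⊆ A → Fix J (jn S) := fun S hS => by
      induction hS using Nonempty.cons_induction with
      | singleton a =>
        intro hs
        have := QQ_fix J (a1 _ (hs (mem_singleton_self a)))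
        exact fix_max h this this (by simp [jn]) fun m hm => by rw [getD_mr _ _ hm]; simp
      | cons a S ha _ ih =>
        intro hs
        exact fix_max h (QQ_fix J (a1 _ (hs (mem_cons_self _ _)))) (ih ((subset_cons _).trans hs))
          (by simp [jn]) fun m hm => by rw [getD_mr _ _ hm, getD_mr _ _ hm, sup_cons]
    have key : ∀ S ∈ A.powerset.erase ∅, ∀ U ∈ A.powerset.erase ∅, toM J (jn S) = toM J (jn U) → S ⊆ U := by
      simp only [mem_erase, mem_powerset, ← nonempty_iff_ne_empty]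
      intro S hS U hU e q hq
      obtain ⟨⟨x, h1, h2, rfl⟩, -⟩ := (mem_QQ J).1 (a1 _ (hS.2 hq))
      obtain ⟨b1, b2, -⟩ := HH_spec J x h1 h2
      have e2 := (pa_toM.1 (e ▸ pa_toM.2 ⟨h1, rfl⟩ : Pa (toM J (jn U)) x.1 (wm J x.1 ((jn S).getD x.1 0)))).2
      have e3 := congrArg (rk J.1 x.1) e2
      rw [(h.wm h1 ((hj S hS.1 hS.2).2 _ h1).1).2, (h.wm h1 ((hj U hU.1 hU.2).2 _ h1).1).2, getD_mr _ _ h1,
        getD_mr _ _ h1] at e3
      obtain ⟨u, hu, e4⟩ := exists_mem_eq_sup U hU.1 fun q => q.getD x.1 0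
      have := b2 u (QQ_fix J (a1 _ (hU.2 hu)))
        (b1.trans (e4 ▸ e3 ▸ le_sup (f := fun q : List ℕ => q.getD x.1 0) hq))
      by_contra n
      exact a2 _ (hS.2 hq) _ (hU.2 hu) ⟨fun e => n (e ▸ hu), this⟩
    refine ⟨(A.powerset.erase ∅).image fun S => toM J (jn S), fun M hM => ?_, ?_⟩
    · obtain ⟨S, hS, rfl⟩ := mem_image.1 hM
      simp only [mem_erase, mem_powerset, ← nonempty_iff_ne_empty] at hS
      exact (hj S hS.1 hS.2).stm h
    · rw [card_image_of_injOn fun S hS U hU e => (key S hS U hU e).antisymm (key U hU S hS e.symm),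
        card_erase_add_one (by simp), card_powerset]
      exact Nat.pow_le_pow_right two_pos a3

end Pool.Agent.H.MP_186ff7_lc
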