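import Pool.Agent.H.MP_186ff7_lc.B

namespace Pool.Agent.H.MP_186ff7_lc

open Pool.Agent.Lib.CX Finset Classical

theorem bet_mem {x y : List ℕ} {b c : ℕ} (h : (x ++ c :: y).idxOf b < (x ++ c :: y).idxOf c) : b ∈ x := by
  by_contra n
  have := List.idxOf_le_length (a := c) (l := x)
  simp only [List.idxOf_append, n, if_false, List.idxOf_cons_self] at h
  split_ifs at h <;> omega

theorem bet_of {x y : List ℕ} {b c : ℕ} (h : c ∉ x) (n : c ≠ b) : (x ++ b :: y).idxOf b < (x ++ b :: y).idxOf c := by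
  have := List.idxOf_le_length (a := b) (l := x)
  simp only [List.idxOf_append, h, if_false, List.idxOf_cons_self, List.idxOf_cons_ne _ n.symm]
  split_ifs <;> omega

variable (V : ℕ) (adj : ℕ → ℕ → Bool)

def hd (a : ℕ) : List ℕ :=
  if a % 4 = 0 then (a + 2) :: (((List.range V).filter (adj (a / 4))).map (4 * ·) ++ [a + 3])
  else if a % 4 = 1 then [a + 2, a + 1] else if a % 4 = 2 then [a - 1, a - 2] else [a - 3, a - 2]
def gad : Pf := (List.range (4 * V)).map fun a => hd V adj a ++ (List.range (4 * V)).filter fun b => b ≠ a ∧ b ∉ hd V adj a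
def pt (S : Finset ℕ) (a : ℕ) : ℕ :=
  if a % 4 = 0 then (if a / 4 ∈ S then a + 3 else a + 2) else if a % 4 = 1 then (if a / 4 ∈ S then a + 1 else a + 2)
  else if a % 4 = 2 then (if a / 4 ∈ S then a - 1 else a - 2) else (if a / 4 ∈ S then a - 3 else a - 2)
def MS (S : Finset ℕ) : Mt := (List.range (4 * V)).map fun a => some (pt S a)
def Ind (S : Finset ℕ) : Prop := (∀ v ∈ S, v < V) ∧ ∀ u ∈ S, ∀ v ∈ S, adj u v = false

theorem pt_gad {α : Type} [Enc α] {V : α → ℕ} {adj : α → ℕ → ℕ → Bool} (h1 : PT V) (h2 : PB V)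
    (h : PT fun x : α × ℕ × ℕ => adj x.1 x.2.1 x.2.2) : PT fun a => gad (V a) (adj a) := by
  obtain ⟨G, hG, e⟩ : ∃ G : α → ℕ → List ℕ, (PT fun x : α × ℕ => G x.1 x.2) ∧ ∀ x a, hd (V x) (adj x) a = G x a := by
    have := h2.comp (PT.fst' (α := α) (β := ℕ))
    exact ⟨_, by unfold hd; fun_prop, fun _ _ => rfl⟩
  have := h2.comp (PT.fst' (α := α) (β := ℕ))
  simp only [gad, e]; fun_prop

variable {V adj}

theorem gad_len : (gad V adj).length = 4 * V := by simp [gad]

theorem pa_MS {S a b} : Pa (MS V S) a b ↔ a < 4 * V ∧ pt S a = b := by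
  refine ⟨fun h => ?_, fun h => by rw [Pa, MS, getD_mr _ _ h.1, h.2]⟩
  have := pa_lt h
  simp only [MS, List.length_map, List.length_range] at this
  rw [Pa, MS, getD_mr _ _ this] at h
  exact ⟨this, Option.some.inj h⟩

theorem gad_sr (irr : ∀ v, adj v v = false) : SR (gad V adj) := fun a ha => by
  rw [gad_len] at ha ⊢
  rw [gad, getD_mr _ _ ha]
  have h : (hd V adj a).Nodup ∧ ∀ b ∈ hd V adj a, b < 4 * V ∧ b ≠ a := by
    unfold hd; split_ifs with h1 h2 h3
    · have : (((List.range V).filter (adj (a / 4))).map (4 * ·)).Nodup :=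
        (List.nodup_range.filter _).map fun _ _ h => by simpa using h
      simp only [List.nodup_cons, List.nodup_append, this, List.mem_append, List.mem_map, List.mem_filter, List.mem_range,
        List.mem_cons, List.not_mem_nil, or_false]
      refine ⟨⟨by omega, trivial, by simp, by omega⟩, ?_⟩
      rintro b (rfl | ⟨u, ⟨hu, h⟩, rfl⟩ | rfl)
      · omega
      · exact ⟨by omega, by rintro rfl; simp [irr] at h⟩
      · omega
    all_goals simp; omega
  refine (List.perm_ext_iff_of_nodup (List.nodup_append.2 ⟨h.1, List.nodup_range.filter _, ?_⟩)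
    (List.nodup_range.erase _)).2 fun b => ?_
  · rintro b hb _ hc rfl; simp [hb] at hc
  · have := h.2 b
    simp only [List.mem_append, List.mem_filter, List.nodup_range.mem_erase_iff, List.mem_range, decide_eq_true_eq]
    tauto

theorem Ind.str {S} (h : Ind V adj S) : StR (gad V adj) (MS V S) := by
  refine ⟨by simp [gad, MS], fun a b => ?_, ?_⟩
  · simp only [pa_MS]
    rintro ⟨ha, rfl⟩
    have e : pt S a / 4 = a / 4 := by unfold pt; split_ifs <;> omega
    rw [pt.eq_def S (pt S a), e]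
    unfold pt; split_ifs <;> omega
  have key : ∀ a < 4 * V, ∀ b, (∀ c, Pa (MS V S) a c → Bet (gad V adj) a b c) →
      (a % 4 = 0 ∧ a / 4 ∈ S ∧ (b = a + 2 ∨ b % 4 = 0 ∧ adj (a / 4) (b / 4))) ∨ (a % 4 = 1 ∧ a / 4 ∈ S ∧ b = a + 2) ∨
      (a % 4 = 2 ∧ a / 4 ∉ S ∧ b = a - 1) ∨ (a % 4 = 3 ∧ a / 4 ∉ S ∧ b = a - 3) := fun a ha b hb => by
    have := hb _ (pa_MS.2 ⟨ha, rfl⟩)
    rw [Bet, gad, getD_mr _ _ ha] at this
    generalize (List.range (4 * V)).filter _ = r at this
    unfold hd pt at this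
    split_ifs at this with h1 h2 h3 h4 h5 h6 h7
    · rw [← List.cons_append, List.append_assoc, List.singleton_append] at this
      have := bet_mem this
      simp only [List.mem_cons, List.mem_map, List.mem_filter] at this
      rcases this with h | ⟨u, hu, rfl⟩
      exacts [.inl ⟨h1, h2, .inl h⟩, .inl ⟨h1, h2, .inr ⟨by omega, by simpa using hu.2⟩⟩]
    · simp at this
    · exact .inr (.inl ⟨h3, h4, by simpa using bet_mem (x := [a + 2]) this⟩)
    · simp at this
    · simp at this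
    · exact .inr (.inr (.inl ⟨h5, h6, by simpa using bet_mem (x := [a - 1]) this⟩))
    · simp at this
    · exact .inr (.inr (.inr ⟨by omega, h7, by simpa using bet_mem (x := [a - 3]) this⟩))
  rw [gad_len]
  rintro a ha b hb - - ⟨h1, h2⟩
  have e : ∀ {a b : ℕ}, a / 4 ∈ S → b / 4 ∉ S → a / 4 ≠ b / 4 := fun h n e => n (e ▸ h)
  rcases key a ha b h1 with ⟨a1, a2, a3 | a3⟩ | ⟨a1, a2, a3⟩ | ⟨a1, a2, a3⟩ | ⟨a1, a2, a3⟩ <;>
  rcases key b hb a h2 with ⟨b1, b2, b3 | b3⟩ | ⟨b1, b2, b3⟩ | ⟨b1, b2, b3⟩ | ⟨b1, b2, b3⟩ <;>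
  first | omega | exact e a2 b2 (by omega) | exact e b2 a2 (by omega) | simp [h.2 _ a2 _ b2] at a3

theorem StR.ind (sym : ∀ u v, adj u v = adj v u) (irr : ∀ v, adj v v = false) {M} (s : StR (gad V adj) M) :
    ∃ S, Ind V adj S ∧ MS V S = M := by
  obtain ⟨s1, s2, s3⟩ := s
  rw [gad_len] at s1 s3
  have un : ∀ {a b c}, Pa M a b → Pa M a c → b = c := fun h1 h2 => Option.some.inj (h1.symm.trans h2)
  have nb : ∀ a < 4 * V, ∀ b < 4 * V, a ≠ b → ∀ x y x' y', hd V adj a = x ++ b :: y → hd V adj b = x' ++ a :: y' →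
      (∀ c ∈ x, ¬ Pa M a c) → (∀ c ∈ x', ¬ Pa M b c) → Pa M a b := fun a ha b hb n x y x' y' e e' h h' => by
    by_contra q
    refine s3 a ha b hb n q ⟨fun c hc => ?_, fun c hc => ?_⟩
    · rw [Bet, gad, getD_mr _ _ ha, e, List.append_assoc, List.cons_append]
      exact bet_of (fun m => h c m hc) fun m => q (m ▸ hc)
    · rw [Bet, gad, getD_mr _ _ hb, e', List.append_assoc, List.cons_append]
      exact bet_of (fun m => h' c m hc) fun m => q (s2 _ _ (m ▸ hc)).2
  have g : ∀ v < V, (Pa M (4 * v) (4 * v + 2) ∧ Pa M (4 * v + 1) (4 * v + 3)) ∨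
      (Pa M (4 * v) (4 * v + 3) ∧ Pa M (4 * v + 1) (4 * v + 2)) := fun v hv => by
    have h1 : hd V adj (4 * v + 1) = [4 * v + 3, 4 * v + 2] := by simp [hd]
    have h2 : hd V adj (4 * v + 2) = [4 * v + 1, 4 * v] := by simp [hd]
    have h3 : hd V adj (4 * v + 3) = [4 * v, 4 * v + 1] := by simp [hd]
    by_cases q : Pa M (4 * v + 1) (4 * v + 3)
    · refine .inl ⟨nb _ (by omega) _ (by omega) (by omega) [] _ [_] _ (by simp [hd]; rfl) h2 (by simp) ?_, q⟩
      simpa using fun e => by have := un q (s2 _ _ e).2; omega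
    · refine .inr ⟨?_, nb _ (by omega) _ (by omega) (by omega) [_] _ [] _ h1 h2 (by simpa) (by simp)⟩
      by_contra n
      exact q (nb _ (by omega) _ (by omega) (by omega) [] _ [_] _ h1 h3 (by simp) (by simpa using fun e => n (s2 _ _ e).2))
  refine ⟨(range V).filter fun v => Pa M (4 * v) (4 * v + 3), ⟨fun v hv => mem_range.1 (mem_filter.1 hv).1, ?_⟩, ?_⟩
  · simp only [mem_filter, mem_range]
    intro u hu v hv
    by_contra! q
    have f : ∀ u v, v < V → adj u v ≠ false → Pa M (4 * u) (4 * u + 3) →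
        ∃ x y, hd V adj (4 * u) = x ++ 4 * v :: y ∧ ∀ c ∈ x, ¬ Pa M (4 * u) c := fun u v hv q h => by
      obtain ⟨x, y, e⟩ := List.append_of_mem (List.mem_filter.2 ⟨List.mem_range.2 hv, by simpa using q⟩ :
        v ∈ (List.range V).filter (adj u))
      refine ⟨(4 * u + 2) :: x.map (4 * ·), y.map (4 * ·) ++ [4 * u + 3], by simp [hd, e], fun c hc m => ?_⟩
      have := un h m
      simp only [List.mem_cons, List.mem_map] at hc
      omega
    obtain ⟨x, y, e, h⟩ := f u v hv.1 q hu.2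
    obtain ⟨x', y', e', h'⟩ := f v u hu.1 (sym u v ▸ q) hv.2
    have := un hu.2 (nb _ (by omega) _ (by omega) (fun e => q (by rw [show u = v by omega, irr])) x y x' y' e e' h h')
    omega
  · refine List.ext_getElem (by simp [MS, s1]) fun a h1 h2 => ?_
    have ha : a < 4 * V := s1 ▸ h2
    suffices Pa M a (pt ((range V).filter fun v => Pa M (4 * v) (4 * v + 3)) a) by
      rw [Pa, List.getD_eq_getElem _ _ h2] at this
      simp [MS, this]
    have hv : a / 4 < V := by omega
    have c : ∀ {a b a' b'}, Pa M a b → a' = a → b' = b → Pa M a' b' := fun h e e' => e ▸ e' ▸ h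
    rcases g _ hv with ⟨p, q⟩ | ⟨p, q⟩
    · have n : ¬ Pa M (4 * (a / 4)) (4 * (a / 4) + 3) := fun e => by have := un p e; omega
      simp only [pt, mem_filter, n, and_false, if_false]
      split_ifs
      exacts [c p (by omega) (by omega), c q (by omega) (by omega), c (s2 _ _ p).2 (by omega) (by omega),
        c (s2 _ _ q).2 (by omega) (by omega)]
    · simp only [pt, mem_filter, p, mem_range, hv, and_true, if_true]
      split_ifs
      exacts [c p (by omega) (by omega), c q (by omega) (by omega), c (s2 _ _ q).2 (by omega) (by omega),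
        c (s2 _ _ p).2 (by omega) (by omega)]

theorem sr_lower {S} (h : Ind V adj S) : ∃ T : Finset Mt, (∀ M ∈ T, StR (gad V adj) M) ∧ T.card = 2 ^ S.card := by
  have key : ∀ A ⊆ S, ∀ B : Finset ℕ, MS V A = MS V B → A ⊆ B := fun A hA B e v hv => by
    have := h.1 v (hA hv)
    have := (pa_MS.1 (e ▸ pa_MS.2 ⟨by omega, rfl⟩ : Pa (MS V B) (4 * v) (pt A (4 * v)))).2
    by_contra n
    simp [pt, hv, n] at this
  refine ⟨S.powerset.image (MS V), fun M hM => ?_, ?_⟩
  · obtain ⟨A, hA, rfl⟩ := mem_image.1 hM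
    have := mem_powerset.1 hA
    exact Ind.str ⟨fun v hv => h.1 v (this hv), fun u hu v hv => h.2 u (this hu) v (this hv)⟩
  · rw [card_image_of_injOn fun A hA B hB e => (key A (by simpa using hA) B e).antisymm (key B (by simpa using hB) A e.symm),
      card_powerset]

theorem sr_upper (sym : ∀ u v, adj u v = adj v u) (irr : ∀ v, adj v v = false) {k : ℕ}
    (h : ∀ S, Ind V adj S → S.card ≤ k) (T : Finset Mt) (hT : ∀ M ∈ T, StR (gad V adj) M) : T.card ≤ (V + 1) ^ k := by
  choose! S hS e using fun M hM => (hT M hM).ind sym irr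
  rw [← card_image_of_injOn (f := S) fun M hM N hN q => by rw [← e M hM, ← e N hN, q]]
  refine (card_small (range V) _ _ fun A hA => ?_).trans (by rw [card_range])
  obtain ⟨M, hM, rfl⟩ := mem_image.1 hA
  exact ⟨fun v hv => mem_range.2 ((hS M hM).1 v hv), h _ (hS M hM)⟩

end Pool.Agent.H.MP_186ff7_lc
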