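import Pool.Agent.H.MP_186ff7_lc.C
import Pool.Agent.Lib.helper20.PCPE

namespace Pool.Agent.H.MP_186ff7_lc

open Pool.Agent.Lib.CX Finset Classical BigOperators Pool.Agent.Lib.helper20.PCP

theorem cheb {p k : ℕ} [Fact p.Prime] (hk : k ≤ p) (g : ZMod p → ℝ) (hg : ∀ z, g z ^ 2 = g z) :
    (𝔼 a : ZMod p, 𝔼 b : ZMod p, if ∀ i < k, g (a + i * b) = 0 then (1 : ℝ) else 0) * (k * 𝔼 z, g z) ≤ 1 := by
  obtain ⟨μ, hμ⟩ : ∃ μ, 𝔼 z, g z = μ := ⟨_, rfl⟩
  have e : ∀ i ∈ range k, ∀ j ∈ range k, 𝔼 a : ZMod p, 𝔼 b : ZMod p, (g (a + i * b) - μ) * (g (a + j * b) - μ) =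
      if i = j then μ - μ ^ 2 else 0 := fun i hi j hj => by
    have : ∀ b : ZMod p, 𝔼 a : ZMod p, (g (a + i * b) - μ) * (g (a + j * b) - μ) =
        𝔼 a : ZMod p, (g a - μ) * (g (a + (j - i) * b) - μ) := fun b => by
      rw [← shift (fun a => (g a - μ) * (g (a + (j - i) * b) - μ)) (i * b)]
      exact expect_congr rfl fun a _ => by rw [show a + i * b + (j - i) * b = a + j * b by ring]
    rw [expect_comm]
    simp only [this]
    split_ifs with h
    · simp only [h, sub_self, zero_mul, add_zero, ← pow_two, sub_sq, hg, Fintype.expect_const, expect_add_distrib,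
        expect_sub_distrib, ← expect_mul, ← mul_expect, hμ]
      ring
    · have n : (j - i : ZMod p) ≠ 0 := fun e => h (by
        have := (ZMod.natCast_eq_natCast_iff' _ _ _).1 (sub_eq_zero.1 e)
        rwa [Nat.mod_eq_of_lt ((mem_range.1 hj).trans_le hk), Nat.mod_eq_of_lt ((mem_range.1 hi).trans_le hk),
          eq_comm] at this)
      rw [expect_comm]
      refine expect_eq_zero fun a _ => ?_
      rw [← mul_expect, expect_sub_distrib, Fintype.expect_equiv ((Equiv.mulLeft₀ _ n).trans (Equiv.addLeft a))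
        (fun b => g (a + (j - i) * b)) g fun _ => rfl, hμ]
      simp
  have h1 : 𝔼 a : ZMod p, 𝔼 b : ZMod p, (if ∀ i < k, g (a + i * b) = 0 then (1 : ℝ) else 0) * (k * μ) ^ 2 ≤
      𝔼 a : ZMod p, 𝔼 b : ZMod p, ∑ i ∈ range k, ∑ j ∈ range k, (g (a + i * b) - μ) * (g (a + j * b) - μ) :=
    expect_le_expect fun a _ => expect_le_expect fun b _ => by
      rw [← sum_mul_sum, ← pow_two]
      split_ifs with h
      · rw [sum_congr rfl fun i hi => by rw [h i (mem_range.1 hi)]]; simp [mul_pow]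
      · rw [zero_mul]; positivity
  simp only [expect_sum_comm, ← expect_mul] at h1
  rw [sum_congr rfl fun i hi => sum_congr rfl (e i hi)] at h1
  simp only [sum_ite_eq] at h1
  rw [sum_congr rfl fun i hi => if_pos hi, sum_const, card_range, nsmul_eq_mul] at h1
  have m0 : 0 ≤ μ := hμ ▸ expect_nonneg fun z _ => hg z ▸ sq_nonneg _
  rw [hμ]
  rcases (mul_nonneg (Nat.cast_nonneg k) m0).eq_or_lt with h | h
  · rw [← h]; simp
  · exact le_of_mul_le_mul_right (by nlinarith [mul_nonneg (Nat.cast_nonneg (α := ℝ) k) (sq_nonneg μ)]) h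

noncomputable def pas (a : ℕ → ZMod 2) (T : List (List (List ℕ))) : ℝ :=
  (T.map fun t => if ∀ c ∈ t, ok a c then (1 : ℝ) else 0).sum

def app (A B : List (List (List ℕ))) : List (List (List ℕ)) := (A ×ˢ B).map fun x => x.1 ++ x.2

theorem pas_app (a A B) : pas a (app A B) = pas a A * pas a B := by
  induction A with
  | nil => simp [pas, app]
  | cons t A ih =>
    simp only [pas, app, List.product_cons, List.map_append, List.sum_append, List.map_cons, List.sum_cons, add_mul,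
      List.map_map, Function.comp_def, List.forall_mem_append] at ih ⊢
    rw [ih]; split_ifs with h
    · simp [eq_true h]
    · simp [h]

def bat (φ : List (List ℕ)) (p k : ℕ) : List (List (List ℕ)) := (List.range p ×ˢ List.range p).map fun x =>
  (List.range k).map fun i => φ.getD ((x.1 + i * x.2) % p % φ.length) []

theorem sum_zmod {p : ℕ} [NeZero p] (F : ℕ → ℝ) : ∑ r ∈ range p, F r = ∑ z : ZMod p, F z.val :=
  (sum_nbij' ZMod.val (fun r => (r : ZMod p)) (fun z _ => mem_range.2 (ZMod.val_lt z)) (fun _ _ => mem_univ _)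
    (fun z _ => by simp) (fun r h => ZMod.val_cast_of_lt (mem_range.1 h)) fun _ _ => rfl).symm

theorem pas_bat {φ} {ε : ℝ} (hg : Gap ε φ) (ε0 : 0 ≤ ε) (h0 : φ ≠ []) {p k : ℕ} (hp : p.Prime) (hk : k ≤ p)
    (hm : φ.length ≤ p) (a) : pas a (bat φ p k) * (k * ε) ≤ 2 * p ^ 2 := by
  haveI := Fact.mk hp
  let F : ℕ → ℝ := fun c => if ok a (φ.getD c []) then 0 else 1
  have F0 : ∀ c, 0 ≤ F c := fun c => by simp only [F]; split_ifs <;> norm_num
  have h1 := cheb hk (fun z => F (z.val % φ.length)) fun z => by simp only [F]; split_ifs <;> norm_num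
  have h2 : ∀ t, ∑ c ∈ range (φ.length * t), F (c % φ.length) = t * bad φ a := fun t => by
    induction t with
    | zero => simp
    | succ t ih =>
      rw [mul_add, mul_one, sum_range_add, ih, bad, sum_getD φ [], Nat.cast_succ, add_mul, one_mul]
      exact congrArg _ (sum_congr rfl fun c hc => by rw [Nat.mul_add_mod, Nat.mod_eq_of_lt (mem_range.1 hc)])
  have l0 := List.length_pos_iff.2 h0
  have p0 : (0 : ℝ) < p := Nat.cast_pos.2 hp.pos
  have h3 : ε / 2 ≤ 𝔼 z : ZMod p, F (z.val % φ.length) := by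
    rw [expect_eq_sum_div_card, ← sum_zmod fun c => F (c % φ.length), card_univ, ZMod.card, le_div_iff₀ p0]
    refine le_trans ?_ (sum_le_sum_of_subset_of_nonneg (range_subset_range.2 (Nat.mul_div_le p φ.length))
      fun _ _ _ => F0 _)
    have : p ≤ 2 * (p / φ.length) * φ.length := by
      have := Nat.div_pos hm l0
      have := Nat.lt_mul_div_succ p l0
      nlinarith
    have : (p : ℝ) ≤ 2 * (p / φ.length : ℕ) * φ.length := by exact_mod_cast this
    rw [h2]
    nlinarith [mul_le_mul_of_nonneg_left (hg a) (Nat.cast_nonneg (α := ℝ) (p / φ.length))]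
  have h4 : pas a (bat φ p k) = p ^ 2 * 𝔼 x : ZMod p, 𝔼 y : ZMod p,
      if ∀ i < k, F ((x + i * y).val % φ.length) = 0 then (1 : ℝ) else 0 := by
    rw [pas, bat, List.map_map, ← List.sum_toFinset _ (List.nodup_range.product List.nodup_range),
      show (List.range p ×ˢ List.range p).toFinset = range p ×ˢ range p by ext ⟨⟩; simp, sum_product]
    simp only [expect_eq_sum_div_card, ← sum_div, card_univ, ZMod.card, sum_zmod]
    field_simp
    refine sum_congr rfl fun x _ => sum_congr rfl fun y _ => ?_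
    simp [F, ZMod.val_add, ZMod.val_mul, -List.getD_eq_getElem?_getD, mul_comm]
  have h5 : (0 : ℝ) ≤ 𝔼 x : ZMod p, 𝔼 y : ZMod p, if ∀ i < k, F ((x + i * y).val % φ.length) = 0 then (1 : ℝ) else 0 :=
    expect_nonneg fun _ _ => expect_nonneg fun _ _ => by split_ifs <;> norm_num
  rw [h4, mul_assoc, mul_comm 2]
  refine mul_le_mul_of_nonneg_left ?_ (by positivity)
  nlinarith [mul_le_mul_of_nonneg_left h3 (mul_nonneg h5 (Nat.cast_nonneg (α := ℝ) k))]

def zb (b : Bool) : ZMod 2 := if b then 1 else 0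

variable (T : List (List (List ℕ))) (l : ℕ)

def var (v c t : ℕ) : ℕ := ((T.getD (v / 2 ^ (10 * l)) []).getD c []).getD t 0
def bt (v c t : ℕ) : Bool := (v % 2 ^ (10 * l)).testBit (10 * c + t)
def conf (u v : ℕ) : Prop := ∃ c < l, ∃ t < 10, ∃ d < l, ∃ s < 10, var T l u c t = var T l v d s ∧ bt l u c t ≠ bt l v d s
def good (v : ℕ) : Prop := (∀ c < l, Pd fun t => zb (bt l v c t)) ∧ ¬ conf T l v v
noncomputable def ad (u v : ℕ) : Bool :=
  decide (u ≠ v ∧ (¬ good T l u ∨ ¬ good T l v ∨ u / 2 ^ (10 * l) = v / 2 ^ (10 * l) ∨ conf T l u v))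

theorem ad_symm (u v) : ad T l u v = ad T l v u := by
  have : ∀ u v, conf T l u v → conf T l v u := fun u v ⟨c, h1, t, h2, d, h3, s, h4, h5, h6⟩ =>
    ⟨d, h3, s, h4, c, h1, t, h2, h5.symm, h6.symm⟩
  have h1 := this u v
  have h2 := this v u
  simp only [ad, decide_eq_decide, ne_comm (a := u), eq_comm (a := u / _)]; tauto

theorem pt_ad {α : Type} [Enc α] {T : α → List (List (List ℕ))} {l : α → ℕ} (h1 : PT T) (h2 : PT l) (h3 : PB l) :
    PT fun x : α × ℕ × ℕ => ad (T x.1) (l x.1) x.2.1 x.2.2 := by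
  have b1 := h3.comp (PT.fst' (β := ℕ × ℕ))
  have b2 := h3.comp (PT.fst' (β := ℕ))
  have a1 : PT fun x : α × ℕ × ℕ => @decide (conf (T x.1) (l x.1) x.2.1 x.2.2) (propDecidable _) := by
    refine MP_00b752_lc.pd_congr (j := fun _ => inferInstance) ?_ fun _ => by unfold conf; rfl
    unfold var bt; fun_prop
  have a2 : PT fun x : (α × ℕ) × ℕ => @decide (Pd fun t => zb (bt (l x.1.1) x.1.2 x.2 t)) (propDecidable _) := by
    have := h3.comp (PT.fst (β := α) (γ := ℕ) (PT.fst' (β := ℕ)))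
    refine (pt_fin (u := fun x : (α × ℕ) × ℕ => x.1.2 % 2 ^ (10 * l x.1.1) / 2 ^ (10 * min x.2 (size x.1.2)) % 2 ^ 10)
      (by fun_prop) _ (fun _ => Nat.mod_lt _ (by norm_num))
      (F := fun y _ => @decide (Pd fun t => zb (y.testBit t)) (propDecidable _)) fun _ => PT.const _).congr fun x => ?_
    refine congrArg (fun L => @decide (Pd L) (propDecidable _)) (funext fun t => congrArg zb ?_)
    rw [bt, Nat.testBit_mod_two_pow _ 10, Nat.testBit_div_two_pow, decide_eq_true t.2, Bool.true_and, add_comm]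
    rcases le_total x.2 (size x.1.2) with h | h
    · rw [min_eq_left h]
    · have : ∀ j, size x.1.2 ≤ j → (x.1.2 % 2 ^ (10 * l x.1.1)).testBit j = false := fun j hj =>
        Nat.testBit_lt_two_pow ((Nat.mod_le _ _).trans_lt ((lt_two_pow_size _).trans_le (Nat.pow_le_pow_right two_pos hj)))
      rw [min_eq_right h, this _ (by omega), this _ (by omega)]
  obtain ⟨G, hG, e⟩ : ∃ G : α → ℕ → Bool, (PT fun x : α × ℕ => G x.1 x.2) ∧ ∀ x v, good (T x) (l x) v ↔ G x v :=
    ⟨fun x v => decide (good (T x) (l x) v), MP_00b752_lc.pd_congr (PT.decide_and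
      (PT.decide_forall_lt (k := fun _ => propDecidable _) a2 (by fun_prop) b2) (PT.decide_not (k := fun _ => propDecidable _)
        (a1.comp (g := fun x : α × ℕ => (x.1, x.2, x.2)) (by fun_prop))) (k := fun _ => propDecidable _))
      fun _ => Iff.rfl, by simp⟩
  simp only [ad, e]
  refine PT.decide_and (i := fun _ => inferInstance) (j := fun _ => inferInstance) (by fun_prop) ?_
  refine PT.decide_or (i := fun _ => inferInstance) (j := fun _ => inferInstance) (by fun_prop) ?_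
  refine PT.decide_or (i := fun _ => inferInstance) (j := fun _ => inferInstance) (by fun_prop) ?_
  exact PT.decide_or (i := fun _ => inferInstance) (by fun_prop) a1

variable {T l}

theorem fg_yes (hl : ∀ t ∈ T, t.length = l) {a} (h : ∀ t ∈ T, ∀ c ∈ t, ok a c) :
    ∃ S, Ind (T.length * 2 ^ (10 * l)) (ad T l) S ∧ S.card = T.length := by
  let x : ℕ → ℕ := fun i => Nat.ofBits fun j : Fin (10 * l) =>
    decide (a (((T.getD i []).getD (j / 10) []).getD (j % 10) 0) = 1)
  have x0 : ∀ i, x i < 2 ^ (10 * l) := fun i => Nat.ofBits_lt_two_pow _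
  have d : ∀ i, (i * 2 ^ (10 * l) + x i) / 2 ^ (10 * l) = i := fun i => by
    rw [mul_comm, Nat.mul_add_div (by positivity), Nat.div_eq_of_lt (x0 i)]; rfl
  have b : ∀ i, ∀ c < l, ∀ t < 10, bt l (i * 2 ^ (10 * l) + x i) c t =
      decide (a (var T l (i * 2 ^ (10 * l) + x i) c t) = 1) := fun i c hc t ht => by
    rw [bt, var, d, Nat.mul_add_mod_of_lt (x0 i), Nat.testBit_ofBits_lt _ _ (by omega)]
    simp only [show (10 * c + t) / 10 = c by omega, show (10 * c + t) % 10 = t by omega]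
  have n : ∀ i j, ¬ conf T l (i * 2 ^ (10 * l) + x i) (j * 2 ^ (10 * l) + x j) :=
    fun i j ⟨c, h1, t, h2, d, h3, s, h4, h5, h6⟩ => h6 (by rw [b i c h1 t h2, b j d h3 s h4, h5])
  have z : ∀ u : ZMod 2, zb (decide (u = 1)) = u := by decide
  have g : ∀ i < T.length, good T l (i * 2 ^ (10 * l) + x i) := fun i hi => ⟨fun c hc => by
    have h1 := List.getElem_mem hi
    have h2 : c < T[i].length := hl _ h1 ▸ hc
    refine Eq.mp (congrArg Pd (funext fun t => ?_)) (h _ h1 _ (List.getElem_mem h2))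
    rw [b i c hc t t.2, var, d, List.getD_eq_getElem _ _ hi, List.getD_eq_getElem _ _ h2]
    exact (z _).symm, n i i⟩
  refine ⟨(range T.length).image fun i => i * 2 ^ (10 * l) + x i, ⟨?_, ?_⟩, ?_⟩
  · simp only [mem_image, mem_range]
    rintro _ ⟨i, hi, rfl⟩
    nlinarith [x0 i, Nat.mul_le_mul_right (2 ^ (10 * l)) (Nat.succ_le_of_lt hi)]
  · simp only [mem_image, mem_range]
    rintro _ ⟨i, hi, rfl⟩ _ ⟨j, hj, rfl⟩
    simp only [ad, g i hi, g j hj, n, d, decide_eq_false_iff_not]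
    rintro ⟨h, h | h | rfl | h⟩ <;> simp at *
  · rw [card_image_of_injective _ fun i j e => by rw [← d i, ← d j]; exact congrArg (· / _) e, card_range]

theorem fg_no (hl : ∀ t ∈ T, t.length = l) {S} (h : Ind (T.length * 2 ^ (10 * l)) (ad T l) S) :
    ∃ a, (S.card : ℝ) ≤ 1 + pas a T := by
  let a : ℕ → ZMod 2 := fun y => if ∃ v ∈ S, ∃ c < l, ∃ t < 10, var T l v c t = y ∧ bt l v c t then 1 else 0
  refine ⟨a, ?_⟩
  rw [pas, sum_getD T [], sum_boole]
  by_cases h1 : S.card ≤ 1
  · exact le_add_of_le_of_nonneg (by exact_mod_cast h1) (Nat.cast_nonneg _)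
  have h2 : ∀ u ∈ S, ∀ v ∈ S, u ≠ v → good T l u ∧ u / 2 ^ (10 * l) ≠ v / 2 ^ (10 * l) ∧ ¬ conf T l u v :=
    fun u hu v hv n => by have := h.2 u hu v hv; simp only [ad, decide_eq_false_iff_not] at this; tauto
  have g : ∀ u ∈ S, good T l u := fun u hu => by
    obtain ⟨v, hv, n⟩ := exists_mem_ne (not_le.1 h1) u
    exact (h2 u hu v hv n.symm).1
  refine le_add_of_nonneg_of_le zero_le_one (Nat.cast_le.2 (card_le_card_of_injOn (· / 2 ^ (10 * l)) (fun v hv => ?_)
    fun u hu v hv e => by_contra fun n => (h2 u hu v hv n).2.1 e))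
  have hi : v / 2 ^ (10 * l) < T.length := Nat.div_lt_of_lt_mul ((h.1 v hv).trans_eq (mul_comm _ _))
  simp only [coe_filter, mem_range, Set.mem_ofPred_eq, hi, true_and]
  intro c hc
  obtain ⟨i, h3, rfl⟩ := List.getElem_of_mem hc
  have h4 : i < l := by rwa [List.getD_eq_getElem _ _ hi, hl _ (List.getElem_mem hi)] at h3
  refine Eq.mp (congrArg Pd (funext fun t => ?_)) ((g v hv).1 i h4)
  rw [← List.getD_eq_getElem _ [] h3]
  change zb _ = a (var T l v i t)
  unfold zb
  suffices (∃ u ∈ S, ∃ c < l, ∃ s < 10, var T l u c s = var T l v i t ∧ bt l u c s) ↔ bt l v i t by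
    simp only [a, this]
  refine ⟨fun ⟨u, hu, c, a1, s, a2, a3, a4⟩ => ?_, fun e => ⟨v, hv, i, h4, t, t.2, rfl, e⟩⟩
  by_contra n
  have : conf T l u v := ⟨c, a1, s, a2, i, h4, t, t.2, a3, fun e => n (e ▸ a4)⟩
  by_cases e : u = v
  exacts [(g v hv).2 (e ▸ this), (h2 u hu v hv e).2.2 this]

end Pool.Agent.H.MP_186ff7_lc
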