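import Pool.Agent.H.MP_186ff7_lc.D

namespace Pool.Agent.H.MP_186ff7_lc

open Pool.Agent.Lib.CX Finset Classical Pool.Agent.Lib.helper20.PCP

theorem poly_exp (q : Polynomial ℕ) : ∃ C, ∀ X j, X ≤ 2 ^ j → q.eval X ≤ 2 ^ (C * (j + 1)) := by
  induction q using Polynomial.induction_on' with
  | add p q hp hq =>
    obtain ⟨a, ha⟩ := hp
    obtain ⟨b, hb⟩ := hq
    refine ⟨a + b + 1, fun X j h => ?_⟩
    have h1 := (ha X j h).trans (Nat.pow_le_pow_right two_pos (show _ ≤ (a + b) * (j + 1) by nlinarith))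
    have h2 := (hb X j h).trans (Nat.pow_le_pow_right two_pos (show _ ≤ (a + b) * (j + 1) by nlinarith))
    have h3 := Nat.pow_le_pow_right two_pos (show (a + b) * (j + 1) + 1 ≤ (a + b + 1) * (j + 1) by nlinarith)
    rw [Polynomial.eval_add]; omega
  | monomial n a =>
    refine ⟨a + n, fun X j h => ?_⟩
    rw [Polynomial.eval_monomial]
    refine (Nat.mul_le_mul Nat.lt_two_pow_self.le (Nat.pow_le_pow_left h n)).trans ?_
    rw [← pow_mul, ← pow_add]
    exact Nat.pow_le_pow_right two_pos (by nlinarith)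

theorem pb_log {N : List (List ℕ) × List Unit → ℕ} (h : PB N) : ∃ C, ∀ x, size x.1 ≤ x.2.length → x.2 ≠ [] →
    (N x).size ≤ C * x.2.length.size := by
  obtain ⟨q, hq⟩ := h
  obtain ⟨C, hC⟩ := poly_exp q
  refine ⟨5 * C + 1, fun x h1 h2 => Nat.size_le.2 ((hq x).trans_lt ((hC _ (x.2.length.size + 3) ?_).trans_lt ?_))⟩
  · have := size_list_le (l := x.2) (B := 2) fun _ _ => le_rfl
    have := Nat.lt_size_self x.2.length
    rw [show size x = _ from size_pair x.1 x.2, pow_add]; omega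
  · have := Nat.size_pos.2 (List.length_pos_iff.2 h2)
    exact Nat.pow_lt_pow_right one_lt_two (by nlinarith)

theorem ex_prime : ∃ P : List Unit → ℕ, PT P ∧ (∀ u, P u ≤ 2 * u.length) ∧ ∀ u, u ≠ [] → (P u).Prime ∧ u.length < P u := by
  refine ⟨fun u => ((List.range (2 * u.length + 1)).find? fun p => u.length < p ∧ ∀ d < p, d ∣ p → d = 1).getD 0, ?_,
    fun u => ?_, fun u hu => ?_⟩
  · refine (show PT fun u : List Unit => ((List.range (2 * u.length + 1)).find? fun p => u.length < p ∧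
      ∀ d < min (2 * u.length + 1) p, d ∣ p → d = 1).getD 0 by fun_prop).congr fun u => congrArg (Option.getD · 0) ?_
    exact List.find?_congr fun p hp => by simp only [min_eq_right (List.mem_range.1 hp).le]
  · beta_reduce
    cases h : List.find? _ _ with
    | none => simp
    | some p => simpa [Nat.lt_succ_iff] using List.mem_of_find?_eq_some h
  · have l := List.length_pos_iff.2 hu
    beta_reduce
    cases h : List.find? _ _ with
    | none =>
      obtain ⟨p, h1, h2, h3⟩ := Nat.exists_prime_lt_and_le_two_mul _ l.ne'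
      simpa [h2] using (List.find?_eq_none.1 h p (List.mem_range.2 (by omega))).elim
        (by simpa [h2] using (Nat.prime_def_lt.1 h1).2)
    | some p =>
      have := List.find?_some h
      simp only [decide_eq_true_eq] at this
      exact ⟨Nat.prime_def_lt.2 ⟨by simp; omega, this.2⟩, this.1⟩

theorem gap_is : ∃ (V W : List (List ℕ) × List Unit → ℕ) (adj : List (List ℕ) × List Unit → ℕ → ℕ → Bool),
    PT V ∧ PB V ∧ PT W ∧ (PT fun x : _ × ℕ × ℕ => adj x.1 x.2.1 x.2.2) ∧ (∀ x u v, adj x u v = adj x v u) ∧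
    (∀ x v, adj x v v = false) ∧ ∀ x, x.1 ≠ [] → x.1.length ≤ x.2.length → x.2.length.size ^ 6 ≤ W x ∧
      (Sat x.1 → ∃ S, Ind (V x) (adj x) S ∧ S.card = W x) ∧ ∀ ε : ℝ, 0 ≤ ε → Gap ε x.1 → ∀ S, Ind (V x) (adj x) S →
        (S.card : ℝ) * (x.2.length.size * ε) ^ 3 ≤ (x.2.length.size * ε) ^ 3 + 8 * W x := by
  obtain ⟨P, p1, p2, p3⟩ := ex_prime
  have p4 : PB P := (show PB fun u : List Unit => 2 * u.length by fun_prop).mono p2
  let B := fun x : List (List ℕ) × List Unit => bat x.1 (P x.2) x.2.length.size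
  let T := fun x => app (B x) (app (B x) (B x))
  have hB : PT B := by
    have := p4.comp (PT.snd' (α := List (List ℕ)))
    simp only [B, bat]; fun_prop
  have hT : PT T := by simp only [T, app]; fun_prop
  refine ⟨fun x => (T x).length * 2 ^ (10 * (3 * x.2.length.size)), fun x => (T x).length,
    fun x => ad (T x) (3 * x.2.length.size), by fun_prop, ?_, by fun_prop, 
    pt_ad (l := fun x => 3 * x.2.length.size) hT (by fun_prop) (by fun_prop),
    fun _ => ad_symm _ _, by simp [ad], fun x h1 h2 => ?_⟩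
  · refine (show PB fun x => (T x).length * (2 * x.2.length + 1) ^ 30 by fun_prop).mono fun x => Nat.mul_le_mul_left _ ?_
    rw [← mul_assoc, mul_comm, pow_mul]
    refine Nat.pow_le_pow_left ?_ _
    rcases Nat.eq_zero_or_pos x.2.length.size with h | h
    · simp [h]
    · have := Nat.lt_size.1 (show x.2.length.size - 1 < x.2.length.size by omega)
      rw [show x.2.length.size = x.2.length.size - 1 + 1 by omega, pow_succ]; omega
  have l0 := List.length_pos_iff.2 h1
  obtain ⟨q1, q2⟩ := p3 x.2 (List.length_pos_iff.1 (by omega))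
  have k1 : x.2.length.size ≤ P x.2 := (Nat.size_le.2 Nat.lt_two_pow_self).trans q2.le
  have len : (T x).length = P x.2 ^ 6 := by
    simp only [T, app, B, bat, List.length_map, List.length_product, List.length_range]; ring
  have mB : ∀ t ∈ B x, t.length = x.2.length.size ∧ ∀ c ∈ t, c ∈ x.1 := fun t ht => by
    obtain ⟨y, -, rfl⟩ := List.mem_map.1 ht
    refine ⟨by simp, fun c hc => ?_⟩
    obtain ⟨i, -, rfl⟩ := List.mem_map.1 hc
    rw [List.getD_eq_getElem _ _ (Nat.mod_lt _ l0)]; exact List.getElem_mem _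
  have mT : ∀ t ∈ T x, t.length = 3 * x.2.length.size ∧ ∀ c ∈ t, c ∈ x.1 := fun t ht => by
    simp only [T, app, List.mem_map, Prod.exists, List.mem_product] at ht
    obtain ⟨a, _, ⟨ha, b, c, ⟨hb, hc⟩, rfl⟩, rfl⟩ := ht
    simp only [List.length_append, (mB a ha).1, (mB b hb).1, (mB c hc).1, List.forall_mem_append]
    exact ⟨by ring, (mB a ha).2, (mB b hb).2, (mB c hc).2⟩
  refine ⟨(Nat.pow_le_pow_left k1 6).trans len.ge, fun ⟨a, ha⟩ => fg_yes (fun t ht => (mT t ht).1) fun t ht c hc =>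
    ha c ((mT t ht).2 c hc), fun ε ε0 hg S hS => ?_⟩
  obtain ⟨a, ha⟩ := fg_no (fun t ht => (mT t ht).1) hS
  have h3 := pas_bat hg ε0 h1 q1 k1 (by omega) a
  have h4 : 0 ≤ pas a (B x) := List.sum_nonneg fun y hy => by
    obtain ⟨z, -, rfl⟩ := List.mem_map.1 hy; split_ifs <;> norm_num
  have h5 := pow_le_pow_left₀ (by positivity) h3 3
  simp only [T, pas_app] at ha
  beta_reduce
  rw [len]; push_cast
  nlinarith [mul_le_mul_of_nonneg_right ha (by positivity : 0 ≤ (x.2.length.size * ε) ^ 3)]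

theorem main (f : Pf → Pf × Pf) (g h : Pf → Mt → Mt) (hf : PT f)
    (H : ∀ I, SR I → (∃ M, StR I M) → SM (f I) ∧ (∀ M, StR I M → StM (f I) (g I M) ∧ h I (g I M) = M) ∧
      ∀ M, StM (f I) M → StR I (h I M) ∧ g I (h I M) = M) (L : List Bool → Prop) (hL : InNP L) : InP L := by
  obtain ⟨ε, K, ε0, hp⟩ := pcp
  obtain ⟨φ, hφ, e⟩ := hp L hL
  obtain ⟨V, W, adj, v1, v2, w1, a1, a2, a3, G⟩ := gap_is
  obtain ⟨w, w2, w3⟩ := sm_width
  have hJ : PT fun x => f (gad (V x) (adj x)) := hf.comp (pt_gad v1 v2 a1)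
  obtain ⟨C1, c1⟩ := pb_log (N := fun x => (f (gad (V x) (adj x))).1.length * (f (gad (V x) (adj x))).1.length + 1)
    (((PB.length hJ.fst).mul (PB.length hJ.fst)).add (PB.const 1))
  obtain ⟨C2, c2⟩ := pb_log (N := fun x => V x + 1) (by fun_prop)
  obtain ⟨k0, hk⟩ := exists_nat_gt (16 * C1 * C2 / ε ^ 3 + 2 * C1 * (C2 + 1) + 1)
  let X := fun x => (φ x, List.replicate (size (φ x) + 2 ^ k0) ())
  have hX : PT X := by simp only [X]; fun_prop
  refine InP.of_iff (InP.of_decide (i := fun _ => inferInstance) (PT.decide_le (w1.comp hX)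
    (PT.mul (PT.natSize ((hJ.fst.length.mul hJ.fst.length).succ'.comp hX)) (w2.comp (hJ.comp hX))))) fun x => ?_
  obtain ⟨e1, e2, e3⟩ := e x
  have x2 : (X x).2.length = size (φ x) + 2 ^ k0 := by simp [X]
  have x3 : (X x).2 ≠ [] := List.length_pos_iff.1 (by rw [x2]; positivity)
  obtain ⟨g1, g2, g3⟩ := G (X x) e1.1 ((length_le_size _).trans (by rw [x2]; exact Nat.le_add_right _ _))
  have c1 := c1 (X x) (by rw [x2]; exact Nat.le_add_right _ _) x3
  have c2 := c2 (X x) (by rw [x2]; exact Nat.le_add_right _ _) x3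
  have k1 : k0 < (X x).2.length.size := Nat.lt_size.2 (by rw [x2]; exact Nat.le_add_left _ _)
  obtain ⟨s1, s2, s3⟩ := H _ (gad_sr (a3 (X x))) ⟨_, Ind.str (V := V (X x)) (S := ∅) (by simp [Ind])⟩
  obtain ⟨u1, T, u2, u3⟩ := w3 _ s1
  beta_reduce at c1 c2 ⊢
  generalize (X x).2.length.size = k at *
  generalize hn : (f (gad (V (X x)) (adj (X x)))).1.length * (f (gad (V (X x)) (adj (X x)))).1.length + 1 = n at *
  generalize w (f (gad (V (X x)) (adj (X x)))) = d at *
  refine ⟨fun hx => ?_, fun hx => by_contra fun hn => ?_⟩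
  · obtain ⟨S, i1, i2⟩ := g2 (e2 hx)
    obtain ⟨U, t1, t2⟩ := sr_lower i1
    have := u1 (U.image (g _)) fun M hM => by obtain ⟨N, hN, rfl⟩ := mem_image.1 hM; exact (s2 N (t1 N hN)).1
    rw [card_image_of_injOn fun M hM N hN q => by rw [← (s2 M (t1 M hM)).2, q, (s2 N (t1 N hN)).2], t2, i2] at this
    have := this.trans (Nat.pow_le_pow_left (Nat.lt_size_self n).le d)
    rwa [← pow_mul, Nat.pow_le_pow_iff_right one_lt_two] at this
  · obtain ⟨S, i1, i2⟩ := exists_max_image ((range (V (X x))).powerset.filter (Ind (V (X x)) (adj (X x)))) card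
      ⟨∅, by simp [Ind]⟩
    have b1 := g3 ε ε0.le (e3 hn) S (mem_filter.1 i1).2
    have := sr_upper (a2 _) (a3 _) (fun A hA => i2 A (mem_filter.2 ⟨mem_powerset.2 fun v hv => mem_range.2 (hA.1 v hv), hA⟩))
      (T.image (h _)) fun M hM => by obtain ⟨N, hN, rfl⟩ := mem_image.1 hM; exact (s3 N (u2 N hN)).1
    rw [card_image_of_injOn fun M hM N hN q => by rw [← (s3 M (u2 M hM)).2, q, (s3 N (u2 N hN)).2]] at this
    have b2 := this.trans (Nat.pow_le_pow_left (Nat.lt_size_self _).le _)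
    rw [← pow_mul] at b2
    have b3 : d ≤ C2 * k * S.card + 1 := by
      have := Nat.one_le_two_pow (n := (V (X x) + 1).size * S.card)
      have b4 : 2 ^ d ≤ 2 ^ ((V (X x) + 1).size * S.card + 1) := by rw [pow_succ]; omega
      exact ((Nat.pow_le_pow_iff_right one_lt_two).1 b4).trans (by gcongr)
    have b4 : (W (X x) : ℝ) ≤ C1 * k * (C2 * k * S.card + 1) := by exact_mod_cast hx.trans (Nat.mul_le_mul c1 b3)
    have b5 : (k : ℝ) ^ 6 ≤ W (X x) := by exact_mod_cast g1
    have b6 : (k0 : ℝ) < k := by exact_mod_cast k1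
    generalize (W (X x) : ℝ) = R at *
    generalize (S.card : ℝ) = s at *
    have p1 : (0 : ℝ) ≤ 16 * C1 * C2 / ε ^ 3 := by positivity
    have p2 : (0 : ℝ) ≤ 2 * C1 * (C2 + 1) := by positivity
    have k2 : (1 : ℝ) < k := by linarith
    have p3 : 16 * C1 * C2 ≤ k * ε ^ 3 := (div_le_iff₀ (by positivity)).1 (by linarith)
    have p4 : (C1 : ℝ) * C2 * k ^ 2 * 8 * R ≤ (k * ε) ^ 3 * (R / 2) := by
      have : 0 ≤ (k : ℝ) ^ 2 * R := mul_nonneg (by positivity) (le_trans (by positivity) b5)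
      nlinarith [mul_le_mul_of_nonneg_left p3 this]
    have p5 : (C1 : ℝ) * C2 * k ^ 2 * s ≤ C1 * C2 * k ^ 2 + R / 2 := le_of_mul_le_mul_left (by
      nlinarith [mul_le_mul_of_nonneg_left b1 (by positivity : (0 : ℝ) ≤ C1 * C2 * k ^ 2)])
      (by positivity : 0 < (k * ε) ^ 3)
    have p6 : (k : ℝ) ^ 3 ≤ k ^ 6 := pow_le_pow_right₀ k2.le (by norm_num)
    have p7 : (C1 : ℝ) * k ≤ C1 * k ^ 2 := mul_le_mul_of_nonneg_left (by nlinarith) (by positivity)
    nlinarith [mul_lt_mul_of_pos_right (show 2 * C1 * (C2 + 1) < (k : ℝ) by linarith) (by positivity : (0 : ℝ) < k ^ 2)]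

end Pool.Agent.H.MP_186ff7_lc
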